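import Mathlib

open Topology Filter Finset

namespace Pool.Agent.Results.MP_bdee7b_an.FactorASP

universe u v

/-- `x` is a `δ`-average-pseudo-orbit of `f`. -/
def AvgPseudoOrbit {X : Type u} [MetricSpace X] (f : X → X) (δ : ℝ) (x : ℕ → X) : Prop :=
  ∃ N : ℕ, ∀ n ≥ N, ∀ k : ℕ,
    (1 / (n : ℝ)) * ∑ i ∈ range n, dist (f (x (i + k))) (x (i + k + 1)) < δ

/-- `x` is `ε`-shadowed in average by `z`. -/
def AvgShadowed {X : Type u} [MetricSpace X] (f : X → X) (ε : ℝ) (x : ℕ → X) (z : X) : Prop :=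
  limsup (fun n : ℕ => (1 / (n : ℝ)) * ∑ i ∈ range n, dist (f^[i] z) (x i)) atTop < ε

/-- The average shadowing property. -/
def ASP {X : Type u} [MetricSpace X] (f : X → X) : Prop :=
  ∀ ε > 0, ∃ δ > 0, ∀ x : ℕ → X, AvgPseudoOrbit f δ x → ∃ z, AvgShadowed f ε x z

theorem bdd (X : Type u) [MetricSpace X] [CompactSpace X] :
    ∃ D > 0, ∀ a b : X, dist a b ≤ D := by
  obtain ⟨C, hC⟩ := Metric.isBounded_iff.1 (isCompact_univ (X := X)).isBounded
  exact ⟨max C 1, by positivity, fun a b =>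
    (hC (Set.mem_univ a) (Set.mem_univ b)).trans (le_max_left _ _)⟩

theorem modulus {X : Type u} {Y : Type v} [MetricSpace X] [CompactSpace X] [MetricSpace Y]
    [CompactSpace Y] {p : X → Y} (hp : Continuous p) {ε : ℝ} (hε : 0 < ε) :
    ∃ C > 0, ∀ a b, dist (p a) (p b) ≤ ε + C * dist a b := by
  obtain ⟨D, hD, hD'⟩ := bdd Y
  obtain ⟨η, hη, h⟩ := Metric.uniformContinuous_iff.1
    (CompactSpace.uniformContinuous_of_continuous hp) ε hε
  refine ⟨D / η, by positivity, fun a b => ?_⟩
  by_cases hab : dist a b < η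
  · have := h hab
    have : 0 ≤ D / η * dist a b := by positivity
    linarith
  · push Not at hab
    have h1 : D / η * η ≤ D / η * dist a b := by gcongr
    have h2 : D / η * η = D := by field_simp
    have := hD' (p a) (p b)
    linarith

theorem block {Y : Type v} [MetricSpace Y] [CompactSpace Y] {g : Y → Y} (hg : Continuous g)
    (L : ℕ) : ∀ ε > 0, ∃ C ≥ 0, ∀ (y : ℕ → Y) (m : ℕ), ∀ r ≤ L,
      dist (g^[r] (y m)) (y (m + r)) ≤
        ε + C * ∑ j ∈ Ico m (m + r), dist (g (y j)) (y (j + 1)) := by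
  induction L with
  | zero =>
    intro ε hε
    refine ⟨0, le_rfl, fun y m r hr => ?_⟩
    obtain rfl : r = 0 := by omega
    simpa using hε.le
  | succ L ih =>
    intro ε hε
    obtain ⟨C₁, hC₁, h₁⟩ := modulus hg (half_pos hε)
    obtain ⟨C₂, hC₂, h₂⟩ := ih (ε / (2 * C₁)) (by positivity)
    refine ⟨C₁ * C₂ + 1, by positivity, fun y m r hr => ?_⟩
    cases r with
    | zero => simpa using hε.le
    | succ r =>
      rw [Function.iterate_succ_apply', ← add_assoc, Finset.sum_Ico_succ_top (by omega)]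
      have a1 := h₂ y m r (by omega)
      have a2 := h₁ (g^[r] (y m)) (y (m + r))
      have a3 := dist_triangle (g (g^[r] (y m))) (g (y (m + r))) (y (m + r + 1))
      have a4 : 0 ≤ ∑ j ∈ Ico m (m + r), dist (g (y j)) (y (j + 1)) :=
        Finset.sum_nonneg fun _ _ => dist_nonneg
      have a5 : 0 ≤ dist (g (y (m + r))) (y (m + r + 1)) := dist_nonneg
      have a6 := mul_le_mul_of_nonneg_left a1 hC₁.le
      have a7 : C₁ * (ε / (2 * C₁)) = ε / 2 := by field_simp
      have a8 : 0 ≤ C₁ * C₂ * dist (g (y (m + r))) (y (m + r + 1)) := by positivity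
      nlinarith

theorem window (e : ℕ → ℝ) (he : ∀ j, 0 ≤ e j) (L : ℕ) (hL : 0 < L) (n : ℕ) :
    ∑ i ∈ range n, ∑ j ∈ Ico (i / L * L) (i / L * L + i % L), e j ≤ L * ∑ j ∈ range n, e j := by
  have h1 : ∀ i ∈ range n, ∑ j ∈ Ico (i / L * L) (i / L * L + i % L), e j ≤
      ∑ j ∈ range n, if i ∈ Ioc j (j + L) then e j else 0 := by
    intro i hi
    rw [← Finset.sum_filter]
    refine Finset.sum_le_sum_of_subset_of_nonneg (fun j hj => ?_) fun j _ _ => he j
    have h2 := Nat.div_add_mod' i L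
    have h3 := Nat.mod_lt i hL
    simp only [mem_Ico, mem_filter, mem_range, mem_Ioc] at hj hi ⊢
    omega
  refine (Finset.sum_le_sum h1).trans ?_
  rw [Finset.sum_comm, Finset.mul_sum]
  refine Finset.sum_le_sum fun j _ => ?_
  rw [← Finset.sum_filter, Finset.sum_const, nsmul_eq_mul]
  refine mul_le_mul_of_nonneg_right ?_ (he j)
  have : (filter (fun i => i ∈ Ioc j (j + L)) (range n)).card ≤ (Ioc j (j + L)).card :=
    Finset.card_le_card fun i hi => (mem_filter.1 hi).2
  rw [Nat.card_Ioc] at this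
  exact_mod_cast this.trans (by omega)

theorem result (X : Type u) (Y : Type v) [MetricSpace X] [CompactSpace X] [MetricSpace Y]
    [CompactSpace Y] (f : X → X) (g : Y → Y) (_hf : Continuous f) (hg : Continuous g)
    (p : X → Y) (hp : Continuous p) (hsurj : Function.Surjective p) (hcomm : p ∘ f = g ∘ p)
    (h : ASP f) : ASP g := by
  intro ε hε
  obtain ⟨D, hD, hD'⟩ := bdd X
  obtain ⟨C₁, hC₁, h₁⟩ := modulus hp (show 0 < ε / 5 by positivity)
  obtain ⟨δ', hδ', hsh⟩ := h (ε / (5 * C₁)) (by positivity)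
  obtain ⟨L, hL⟩ := exists_nat_gt (2 * D / δ')
  have hLr : (0 : ℝ) < L := lt_trans (by positivity) hL
  have hL0 : 0 < L := by exact_mod_cast hLr
  obtain ⟨C, hC, hblock⟩ := block hg L (ε / 5) (by positivity)
  refine ⟨ε / (5 * (C * L + 1)), by positivity, ?_⟩
  rintro y ⟨N, hN⟩
  choose s hs using hsurj
  have hiter : ∀ r a, p (f^[r] a) = g^[r] (p a) := fun r a =>
    (Function.Semiconj.iterate_right (fun a => congrFun hcomm a) r) a
  let x : ℕ → X := fun i => f^[i % L] (s (y (i / L * L)))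
  have hjump : ∀ i, dist (f (x i)) (x (i + 1)) ≤ D * ((((i + 1) / L : ℕ) : ℝ) - (i / L : ℕ)) := by
    intro i
    by_cases hd : L ∣ i + 1
    · rw [Nat.succ_div, if_pos hd]
      push_cast
      have := hD' (f (x i)) (x (i + 1))
      linarith
    · have e1 : (i + 1) / L = i / L := by rw [Nat.succ_div, if_neg hd, add_zero]
      have e2 : (i + 1) % L = i % L + 1 := by
        have h2 := Nat.div_add_mod' i L
        have h3 := Nat.div_add_mod' (i + 1) L
        rw [e1] at h3
        omega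
      simp only [x, e1, e2, Function.iterate_succ_apply', dist_self, sub_self, mul_zero, le_refl]
  have hx : AvgPseudoOrbit f δ' x := by
    refine ⟨L, fun n hn k => ?_⟩
    have hn' : (L : ℝ) ≤ n := by exact_mod_cast hn
    have hnpos : (0 : ℝ) < n := hLr.trans_le hn'
    have a1 : ∑ i ∈ range n, dist (f (x (i + k))) (x (i + k + 1)) ≤
        D * ((((n + k) / L : ℕ) : ℝ) - (k / L : ℕ)) := by
      refine (Finset.sum_le_sum fun i _ => hjump (i + k)).trans ?_
      rw [← Finset.mul_sum]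
      have := Finset.sum_range_sub (fun i => (((i + k) / L : ℕ) : ℝ)) n
      simp only [zero_add] at this
      rw [← this]
      refine le_of_eq (congrArg _ (Finset.sum_congr rfl fun i _ => ?_))
      rw [add_right_comm]
    have a2 : (((n + k) / L : ℕ) : ℝ) * L ≤ n + k := by
      exact_mod_cast Nat.div_mul_le_self (n + k) L
    have a3 : (k : ℝ) ≤ (k / L : ℕ) * L + L := by
      have h2 := Nat.div_add_mod' k L
      have h3 := Nat.mod_lt k hL0
      exact_mod_cast (by omega : k ≤ k / L * L + L)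
    have a4 : ((((n + k) / L : ℕ) : ℝ) - (k / L : ℕ)) * L ≤ 2 * n := by nlinarith
    rw [div_lt_iff₀ hδ'] at hL
    rw [one_div, inv_mul_lt_iff₀ hnpos]
    refine a1.trans_lt (lt_of_mul_lt_mul_right ?_ hLr.le)
    nlinarith
  obtain ⟨z, hz⟩ := hsh x hx
  refine ⟨p z, ?_⟩
  have hbd : IsBoundedUnder (· ≤ ·) atTop
      (fun n : ℕ => (1 / (n : ℝ)) * ∑ i ∈ range n, dist (f^[i] z) (x i)) := by
    refine isBoundedUnder_of_eventually_le (a := D) ?_
    filter_upwards [eventually_gt_atTop 0] with n hn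
    have hnpos : (0 : ℝ) < n := by exact_mod_cast hn
    rw [one_div, inv_mul_le_iff₀ hnpos]
    refine (Finset.sum_le_sum fun i _ => hD' _ _).trans ?_
    simp
  have hev := eventually_lt_of_limsup_lt hz hbd
  refine lt_of_le_of_lt (limsup_le_of_le (a := 4 * ε / 5)
    (isCoboundedUnder_le_of_le atTop (x := 0) fun n => by positivity) ?_) (by linarith)
  filter_upwards [hev, eventually_gt_atTop 0, eventually_ge_atTop N] with n hn1 hn2 hn3
  have hnpos : (0 : ℝ) < n := by exact_mod_cast hn2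
  have b0 := hN n hn3 0
  simp only [add_zero] at b0
  rw [one_div, inv_mul_lt_iff₀ hnpos] at hn1 b0
  rw [one_div, inv_mul_le_iff₀ hnpos]
  have b1 : ∀ i ∈ range n, dist (g^[i] (p z)) (y i) ≤ 2 * ε / 5 + C₁ * dist (f^[i] z) (x i) +
      C * ∑ j ∈ Ico (i / L * L) (i / L * L + i % L), dist (g (y j)) (y (j + 1)) := by
    intro i _
    have c1 := h₁ (f^[i] z) (x i)
    have c2 := hblock y (i / L * L) (i % L) (Nat.mod_lt i hL0).le
    have c3 : p (x i) = g^[i % L] (y (i / L * L)) := by simp only [x, hiter, hs]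
    rw [hiter, c3] at c1
    have c4 := dist_triangle (g^[i] (p z)) (g^[i % L] (y (i / L * L))) (y i)
    nth_rewrite 1 [Nat.div_add_mod' i L] at c2
    linarith
  refine (Finset.sum_le_sum b1).trans ?_
  rw [Finset.sum_add_distrib, Finset.sum_add_distrib, ← Finset.mul_sum, ← Finset.mul_sum,
    Finset.sum_const, card_range, nsmul_eq_mul]
  have b2 := mul_le_mul_of_nonneg_left
    (window (fun j => dist (g (y j)) (y (j + 1))) (fun _ => dist_nonneg) L hL0 n) hC
  have b3 := mul_le_mul_of_nonneg_left hn1.le hC₁.le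
  have b4 : C₁ * (n * (ε / (5 * C₁))) = n * (ε / 5) := by field_simp
  have b5 := mul_le_mul_of_nonneg_left b0.le (show 0 ≤ C * L + 1 by positivity)
  have b6 : (C * L + 1) * (n * (ε / (5 * (C * L + 1)))) = n * (ε / 5) := by field_simp
  have b7 : 0 ≤ ∑ j ∈ range n, dist (g (y j)) (y (j + 1)) :=
    Finset.sum_nonneg fun _ _ => dist_nonneg
  nlinarith

end Pool.Agent.Results.MP_bdee7b_an.FactorASP
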